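import Pool.Agent.Lib.MP_8a5d18_gt.Ins.OneToOne

set_option autoImplicit false

namespace Pool.Agent.Results.MP_8a5d18_gt.OneToOneFails

open Pool.Agent.Lib.MP_8a5d18_gt

/-- There are a nonprincipal ultrafilter `q` on `ℕ` and a subspace `X` of the Cantor set such that
`C_p(X)` is `q`-sequential (even `q`-Fréchet-Urysohn), but some countable clopen `ω`-cover of `X`
has no subfamily that is a `γ_q`-cover with a ONE-TO-ONE enumeration. -/
theorem result : ∃ (q : Ultrafilter ℕ) (X : Set (ℕ → Bool)), (∀ n : ℕ, q ≠ pure n) ∧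
    PSequential q (Cp X) ∧ PFrechet q (Cp X) ∧
    ∃ 𝒰 : Set (Set X), OmegaCover 𝒰 ∧ 𝒰.Countable ∧ (∀ U ∈ 𝒰, IsClopen U) ∧
      ¬ ∃ 𝒱 ⊆ 𝒰, GammaPCoverInj q 𝒱 := by
  have hp : ∀ n : ℕ, Filter.hyperfilter ℕ ≠ pure n := by
    intro n h
    have h1 : ({n} : Set ℕ)ᶜ ∈ Filter.hyperfilter ℕ :=
      Filter.mem_hyperfilter_of_finite_compl (by simp)
    rw [h, Ultrafilter.mem_pure] at h1
    exact h1 rfl
  obtain ⟨q, hq, hG, hno⟩ := Inj.exists_q (Filter.hyperfilter ℕ)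
  have hF : PFrechet q (Cp (Inj.Sp (Filter.hyperfilter ℕ))) := pFrechet_of_gammaP hq hG
  exact ⟨q, Inj.Sp (Filter.hyperfilter ℕ), hq, pSequential_of_pFrechet hF, hF,
    Set.range (Inj.cl (Filter.hyperfilter ℕ)), Inj.omegaCover_cl hp, Set.countable_range _,
    by rintro _ ⟨n, rfl⟩; exact Inj.isClopen_cl _ n, hno⟩

end Pool.Agent.Results.MP_8a5d18_gt.OneToOneFails
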