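import Pool.Agent.Lib.MP_8a5d18_gt.Ins.Main

set_option autoImplicit false

namespace Pool.Agent.Results.MP_8a5d18_gt.PSequentialFrechet

open Pool.Agent.Lib.MP_8a5d18_gt

universe u

/-- For a nonprincipal ultrafilter `p` on `ℕ` and a Tychonoff space `X` (in any universe), the
following are equivalent: `C_p(X)` is `p`-sequential; `C_p(X)` is `p`-Fréchet-Urysohn; `X` has the
`γ_p`-property. -/
theorem result : ∀ p : Ultrafilter ℕ, (∀ n : ℕ, p ≠ pure n) →
    ∀ (X : Type u) [TopologicalSpace X] [T35Space X],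
      [PSequential p (Cp X), PFrechet p (Cp X), GammaP p X].TFAE := by
  intro p hp X _ _
  tfae_have 1 → 3 := gammaP_of_pSequential
  tfae_have 3 → 2 := pFrechet_of_gammaP hp
  tfae_have 2 → 1 := pSequential_of_pFrechet
  tfae_finish

end Pool.Agent.Results.MP_8a5d18_gt.PSequentialFrechet
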